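import Mathlib

/-!
# A minimal pseudofan that is not a fan

There are eighteen integer vectors in dimension three and a minimal pseudofan of these vectors
which is not the set of maximal cones of a complete simplicial fan.
-/

namespace Pool.Agent.Results.MP_d9dcf6_co.NotFan

open Finset

/-! ### Definitions -/

/-- The `i`-th column as a real vector. -/
def col {n m : ℕ} (V : Matrix (Fin n) (Fin m) ℤ) (i : Fin m) : Fin n → ℝ := fun k => (V k i : ℝ)

/-- The closed convex cone spanned by the columns with index in `s`. -/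
def coneOf {n m : ℕ} (V : Matrix (Fin n) (Fin m) ℤ) (s : Finset (Fin m)) : Set (Fin n → ℝ) :=
  {x | ∃ c : Fin m → ℝ, (∀ i, 0 ≤ c i) ∧ x = ∑ i ∈ s, c i • col V i}

/-- F-matrices. -/
structure IsFMatrix {n m : ℕ} (V : Matrix (Fin n) (Fin m) ℤ) : Prop where
  rank : Submodule.span ℝ (Set.range (col V)) = ⊤
  ne_zero : ∀ i, col V i ≠ 0
  not_multiple : ∀ i j, i ≠ j → ¬ ∃ c : ℝ, 0 < c ∧ col V j = c • col V i
  generate : coneOf V Finset.univ = Set.univ
  gcd_one : ∀ i, (Finset.univ.gcd fun k => V k i) = 1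

/-- The set `𝓜`: a full-dimensional simplicial cone on columns (recorded by the index set `s` of
its generators) which contains no further column. -/
structure InM {n m : ℕ} (V : Matrix (Fin n) (Fin m) ℤ) (s : Finset (Fin m)) : Prop where
  card : s.card = n
  indep : LinearIndepOn ℝ (col V) (s : Set (Fin m))
  empty : ∀ j, j ∉ s → col V j ∉ coneOf V s

/-- `f` is (the index set of) a facet of the cone with index set `t`. -/
def IsFacet {m : ℕ} (f t : Finset (Fin m)) : Prop := ∃ j ∈ t, t.erase j = f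

/-- Pseudofans, as collections of index sets. -/
structure IsPseudofan {n m : ℕ} (V : Matrix (Fin n) (Fin m) ℤ) (C : Set (Finset (Fin m))) :
    Prop where
  subM : ∀ s ∈ C, InM V s
  cover : ∀ i : Fin m, ∃ s ∈ C, i ∈ s
  facets : ∀ s ∈ C, ∀ i ∈ s, ∃ t ∈ C, t ≠ s ∧ IsFacet (s.erase i) t ∧
    (∀ t' ∈ C, t' ≠ s → IsFacet (s.erase i) t' → t' = t) ∧
    ∃ l : (Fin n → ℝ) →ₗ[ℝ] ℝ, (∀ a ∈ s.erase i, l (col V a) = 0) ∧ 0 < l (col V i) ∧
      ∀ x ∈ coneOf V t, l x ≤ 0

/-- Complete simplicial fans whose rays are exactly the rays through the columns; the cones are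
recorded by the index sets of their generators. -/
structure IsCompleteFan {n m : ℕ} (V : Matrix (Fin n) (Fin m) ℤ) (S : Set (Finset (Fin m))) :
    Prop where
  indep : ∀ s ∈ S, LinearIndepOn ℝ (col V) (s : Set (Fin m))
  faces : ∀ s ∈ S, ∀ t ⊆ s, t ∈ S
  inter : ∀ s ∈ S, ∀ t ∈ S, ∃ r, r ⊆ s ∧ r ⊆ t ∧ coneOf V s ∩ coneOf V t = coneOf V r
  complete : ∀ x, ∃ s ∈ S, x ∈ coneOf V s
  rays : ∀ i : Fin m, {i} ∈ S

/-! ### Data -/

/-- The vectors. -/
def P : List (Int × Int × Int) :=
  [(-7, 0, -1), (-3, 4, 8), (-3, -10, 5), (1, 2, -2), (9, 3, 1), (0, -1, -2),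
   (3, -7, 6), (9, -6, -10), (-5, 2, -10), (10, -9, 3), (-4, -1, 4), (-3, -8, 9),
   (4, -3, 3), (-1, -6, -6), (1, 5, 1), (2, 7, -5), (-9, 2, 2), (-6, 10, -5)]

/-- The triangles, each one listed with its three rotations. -/
def R : List (Nat × Nat × Nat) :=
  [(3, 4, 8), (4, 8, 3), (8, 3, 4), (7, 8, 4), (8, 4, 7), (4, 7, 8), (0, 3, 8),
   (3, 8, 0), (8, 0, 3), (11, 4, 3), (4, 3, 11), (3, 11, 4), (13, 7, 4), (7, 4, 13),
   (4, 13, 7), (9, 8, 7), (8, 7, 9), (7, 9, 8), (10, 0, 8), (0, 8, 10), (8, 10, 0),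
   (17, 3, 0), (3, 0, 17), (0, 17, 3), (14, 11, 3), (11, 3, 14), (3, 14, 11), (6, 4, 11),
   (4, 11, 6), (11, 6, 4), (9, 13, 4), (13, 4, 9), (4, 9, 13), (0, 7, 13), (7, 13, 0),
   (13, 0, 7), (3, 9, 7), (9, 7, 3), (7, 3, 9), (5, 8, 9), (8, 9, 5), (9, 5, 8),
   (2, 10, 8), (10, 8, 2), (8, 2, 10), (16, 0, 10), (0, 10, 16), (10, 16, 0), (2, 17, 0),
   (17, 0, 2), (0, 2, 17), (10, 3, 17), (3, 17, 10), (17, 10, 3), (5, 14, 3), (14, 3, 5),
   (3, 5, 14), (15, 11, 14), (11, 14, 15), (14, 15, 11), (2, 6, 11), (6, 11, 2), (11, 2, 6),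
   (2, 4, 6), (4, 6, 2), (6, 2, 4), (14, 9, 4), (9, 4, 14), (4, 14, 9), (0, 13, 9),
   (13, 9, 0), (9, 0, 13), (5, 7, 0), (7, 0, 5), (0, 5, 7), (5, 3, 7), (3, 7, 5),
   (7, 5, 3), (6, 9, 3), (9, 3, 6), (3, 6, 9), (12, 5, 9), (5, 9, 12), (9, 12, 5),
   (16, 8, 5), (8, 5, 16), (5, 16, 8), (15, 2, 8), (2, 8, 15), (8, 15, 2), (1, 10, 2),
   (10, 2, 1), (2, 1, 10), (12, 16, 10), (16, 10, 12), (10, 12, 16), (5, 0, 16), (0, 16, 5),
   (16, 5, 0), (9, 2, 0), (2, 0, 9), (0, 9, 2), (16, 17, 2), (17, 2, 16), (2, 16, 17),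
   (11, 10, 17), (10, 17, 11), (17, 11, 10), (15, 3, 10), (3, 10, 15), (10, 15, 3), (15, 14, 5),
   (14, 5, 15), (5, 15, 14), (1, 11, 15), (11, 15, 1), (15, 1, 11), (1, 2, 11), (2, 11, 1),
   (11, 1, 2), (12, 4, 2), (4, 2, 12), (2, 12, 4), (17, 14, 4), (14, 4, 17), (4, 17, 14),
   (12, 9, 14), (9, 14, 12), (14, 12, 9), (12, 6, 3), (6, 3, 12), (3, 12, 6), (10, 9, 6),
   (9, 6, 10), (6, 10, 9), (2, 5, 12), (5, 12, 2), (12, 2, 5), (1, 8, 16), (8, 16, 1),
   (16, 1, 8), (17, 15, 8), (15, 8, 17), (8, 17, 15), (13, 2, 15), (2, 15, 13), (15, 13, 2),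
   (15, 10, 1), (10, 1, 15), (1, 15, 10), (6, 12, 10), (12, 10, 6), (10, 6, 12), (1, 16, 12),
   (16, 12, 1), (12, 1, 16), (16, 2, 9), (2, 9, 16), (9, 16, 2), (11, 17, 16), (17, 16, 11),
   (16, 11, 17), (9, 10, 11), (10, 11, 9), (11, 9, 10), (12, 3, 15), (3, 15, 12), (15, 12, 3),
   (13, 15, 5), (15, 5, 13), (5, 13, 15), (15, 4, 12), (4, 12, 15), (12, 15, 4), (15, 17, 4),
   (17, 4, 15), (4, 15, 17), (1, 14, 17), (14, 17, 1), (17, 1, 14), (1, 12, 14), (12, 14, 1),
   (14, 1, 12), (13, 5, 2), (5, 2, 13), (2, 13, 5), (17, 8, 1), (8, 1, 17), (1, 17, 8),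
   (11, 16, 9), (16, 9, 11), (9, 11, 16)]

/-- For each entry of `R` an earlier entry which is a rotation of it or adjacent to it. -/
def par : List Nat :=
  [0, 0, 1, 0, 3, 4, 1, 6, 7, 2, 9, 10, 4, 12, 13, 5, 15, 16, 7, 18,
   19, 8, 21, 22, 10, 24, 25, 11, 27, 28, 13, 30, 31, 14, 33, 34, 16, 36, 37, 17,
   39, 40, 19, 42, 43, 20, 45, 46, 22, 48, 49, 23, 51, 52, 25, 54, 55, 26, 57, 58,
   28, 60, 61, 29, 63, 64, 31, 66, 67, 32, 69, 70, 35, 72, 73, 37, 75, 76, 38, 78,
   79, 40, 81, 82, 41, 84, 85, 43, 87, 88, 44, 90, 91, 46, 93, 94, 47, 96, 97, 49,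
   99, 100, 50, 102, 103, 52, 105, 106, 53, 108, 109, 56, 111, 112, 59, 114, 115, 61, 117, 118,
   65, 120, 121, 67, 123, 124, 68, 126, 127, 79, 129, 130, 80, 132, 133, 83, 135, 136, 86, 138,
   139, 88, 141, 142, 89, 144, 145, 92, 147, 148, 94, 150, 151, 95, 153, 154, 101, 156, 157, 104,
   159, 160, 107, 162, 163, 110, 165, 166, 112, 168, 169, 122, 171, 172, 124, 174, 175, 125, 177, 178,
   127, 180, 181, 137, 183, 184, 140, 186, 187, 157, 189, 190]

/-- Bezout coefficients. -/
def bz : List (Int × Int × Int) :=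
  [(0, 0, -1), (1, 1, 0), (-2, 0, -1), (1, 0, 0), (0, 0, 1), (0, -1, 0),
   (0, -1, -1), (-1, 0, -1), (-1, -2, 0), (1, 1, 0), (0, -1, 0), (0, 1, 1),
   (1, 0, -1), (-1, 0, 0), (0, 0, 1), (-2, 0, -1), (-1, -4, 0), (-1, 0, 1)]

/-- Entries of the list of vectors. -/
def getP : List (Int × Int × Int) → Nat → (Int × Int × Int)
  | [], _ => (0, 0, 0)
  | p :: _, 0 => p
  | _ :: l, n + 1 => getP l n

/-- Entries of the list of triangles. -/
def getT : List (Nat × Nat × Nat) → Nat → (Nat × Nat × Nat)
  | [], _ => (0, 0, 0)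
  | p :: _, 0 => p
  | _ :: l, n + 1 => getT l n

/-- The matrix with the vectors `P` as columns. -/
def V : Matrix (Fin 3) (Fin 18) ℤ := fun k i =>
  ![(getP P i).1, (getP P i).2.1, (getP P i).2.2] k

/-- The collection of cones. -/
def C : Set (Finset (Fin 18)) :=
  {s | ∃ x y z : Fin 18, ((x : ℕ), (y : ℕ), (z : ℕ)) ∈ R ∧ s = {x, y, z}}

/-! ### Checks -/

/-- Positivity as a Boolean. -/
def isPos : Int → Bool
  | Int.ofNat (_ + 1) => true
  | _ => false

lemma isPos_iff (x : Int) : isPos x = true → 0 < x := by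
  cases x with
  | ofNat n =>
    cases n with
    | zero => intro h; exact absurd h (by simp [isPos])
    | succ n => intro _; exact Int.natCast_pos.2 (Nat.succ_pos n)
  | negSucc n => intro h; exact absurd h (by simp [isPos])

/-- Determinants. -/
def dtv : (Int × Int × Int) → (Int × Int × Int) → (Int × Int × Int) → Int
  | (x1, y1, z1), (x2, y2, z2), (x3, y3, z3) =>
    x1 * (y2 * z3 - z2 * y3) - y1 * (x2 * z3 - z2 * x3) + z1 * (x2 * y3 - y2 * x3)

/-- All triangles are positively oriented. -/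
def posC : List (Nat × Nat × Nat) → Bool
  | [] => true
  | (a, b, c) :: l => isPos (dtv (getP P a) (getP P b) (getP P c)) && posC l

lemma h1 : posC R = true := by decide +kernel

/-- No further point of the list lies in the cone over the triangle. -/
def emp (a b c : Nat) (pa pb pc : Int × Int × Int) : Nat → List (Int × Int × Int) → Bool
  | _, [] => true
  | j, q :: l =>
    (Nat.beq j a || Nat.beq j b || Nat.beq j c ||
      isPos (dtv q pc pb) || isPos (dtv pa pc q) || isPos (dtv pb pa q)) &&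
      emp a b c pa pb pc (j + 1) l

/-- All triangles are empty. -/
def empC : List (Nat × Nat × Nat) → Bool
  | [] => true
  | (a, b, c) :: l => emp a b c (getP P a) (getP P b) (getP P c) 0 P && empC l

lemma h2 : empC R = true := by decide +kernel

/-- The third vertices of the triangles with a given directed edge. -/
def third (b c : Nat) : List (Nat × Nat × Nat) → List Nat
  | [] => []
  | (x, y, z) :: l => if Nat.beq y b && Nat.beq z c then x :: third b c l else third b c l

/-- Lists with one element. -/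
def one : List Nat → Bool
  | [_] => true
  | _ => false

/-- Every directed edge of a triangle, and its reverse, lie in exactly one triangle. -/
def adjC : List (Nat × Nat × Nat) → Bool
  | [] => true
  | (_, b, c) :: l => one (third b c R) && one (third c b R) && adjC l

lemma h3 : adjC R = true := by decide +kernel

/-- Membership of a triangle. -/
def memB (a b c : Nat) : List (Nat × Nat × Nat) → Bool
  | [] => false
  | (x, y, z) :: l => (Nat.beq x a && Nat.beq y b && Nat.beq z c) || memB a b c l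

/-- Closure under rotation. -/
def rotC : List (Nat × Nat × Nat) → Bool
  | [] => true
  | (a, b, c) :: l => memB b c a R && rotC l

lemma h4 : rotC R = true := by decide +kernel

/-- Bounds of the entries. -/
def bndC : List (Nat × Nat × Nat) → Bool
  | [] => true
  | (a, _, _) :: l => Nat.blt a 18 && bndC l

lemma h5 : bndC R = true := by decide +kernel

/-- Every vertex occurs. -/
def covB (a : Nat) : List (Nat × Nat × Nat) → Bool
  | [] => false
  | (x, _, _) :: l => Nat.beq x a || covB a l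

/-- Every vertex below `n` occurs. -/
def covC : Nat → Bool
  | 0 => true
  | n + 1 => covB n R && covC n

lemma h6 : covC 18 = true := by decide +kernel

/-- Rotation or adjacency. -/
def rel : (Nat × Nat × Nat) → (Nat × Nat × Nat) → Bool
  | (a, b, c), (x, y, z) => (Nat.beq a y && Nat.beq b z && Nat.beq c x) ||
      (Nat.beq b z && Nat.beq c y)

/-- The check of the list of parents. -/
def parC : Nat → List (Nat × Nat × Nat) → List Nat → Bool
  | _, [], _ => true
  | n, t :: l, m :: l' => (Nat.beq n 0 || (Nat.blt m n && rel t (getT R m))) && parC (n + 1) l l'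
  | _, _ :: _, [] => false

lemma h7 : parC 0 R par = true := by decide +kernel

/-- The Bezout check. -/
def bzC : List (Int × Int × Int) → List (Int × Int × Int) → Bool
  | [], _ => true
  | (x, y, z) :: l, (a, b, c) :: l' => (a * x + b * y + c * z == 1) && bzC l l'
  | _ :: _, [] => false

lemma h8 : bzC P bz = true := by decide +kernel

/-- Cross product not zero. -/
def crs : (Int × Int × Int) → (Int × Int × Int) → Bool
  | (x1, y1, z1), (x2, y2, z2) =>
    !(y1 * z2 - z1 * y2 == 0 && z1 * x2 - x1 * z2 == 0 && x1 * y2 - y1 * x2 == 0)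

lemma h9 : ∀ i j : Fin 18, i ≠ j → crs (getP P i) (getP P j) = true := by decide +kernel

/-! ### Consequences of the checks -/

lemma pos_of : ∀ l : List (Nat × Nat × Nat), posC l = true → ∀ a b c, (a, b, c) ∈ l →
    0 < dtv (getP P a) (getP P b) (getP P c) := by
  intro l
  induction l with
  | nil => intro _ a b c h; exact absurd h (by simp)
  | cons t l ih =>
    obtain ⟨x, y, z⟩ := t
    intro h a b c hm
    simp only [posC, Bool.and_eq_true] at h
    rcases List.mem_cons.1 hm with h' | h'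
    · obtain ⟨rfl, rfl, rfl⟩ : a = x ∧ b = y ∧ c = z := by simpa using h'
      exact isPos_iff _ h.1
    · exact ih h.2 a b c h'

lemma emp_of (a b c : Nat) (pa pb pc : Int × Int × Int) :
    ∀ (l : List (Int × Int × Int)) (j : Nat), emp a b c pa pb pc j l = true →
      ∀ i, i < l.length → j + i = a ∨ j + i = b ∨ j + i = c ∨ 0 < dtv (getP l i) pc pb ∨
        0 < dtv pa pc (getP l i) ∨ 0 < dtv pb pa (getP l i) := by
  intro l
  induction l with
  | nil => intro j _ i hi; exact absurd hi (by simp)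
  | cons q l ih =>
    intro j h i hi
    simp only [emp, Bool.and_eq_true, Bool.or_eq_true] at h
    obtain ⟨h1, h2⟩ := h
    cases i with
    | zero =>
      simp only [getP, Nat.add_zero]
      rcases h1 with ((((h | h) | h) | h) | h) | h
      · exact Or.inl (Nat.eq_of_beq_eq_true h)
      · exact Or.inr (Or.inl (Nat.eq_of_beq_eq_true h))
      · exact Or.inr (Or.inr (Or.inl (Nat.eq_of_beq_eq_true h)))
      · exact Or.inr (Or.inr (Or.inr (Or.inl (isPos_iff _ h))))
      · exact Or.inr (Or.inr (Or.inr (Or.inr (Or.inl (isPos_iff _ h)))))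
      · exact Or.inr (Or.inr (Or.inr (Or.inr (Or.inr (isPos_iff _ h)))))
    | succ i =>
      have := ih (j + 1) h2 i (by simpa using hi)
      have e : j + (i + 1) = j + 1 + i := by omega
      rw [e]
      exact this

lemma empC_of : ∀ l : List (Nat × Nat × Nat), empC l = true → ∀ a b c, (a, b, c) ∈ l →
    emp a b c (getP P a) (getP P b) (getP P c) 0 P = true := by
  intro l
  induction l with
  | nil => intro _ a b c h; exact absurd h (by simp)
  | cons t l ih =>
    obtain ⟨x, y, z⟩ := t
    intro h a b c hm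
    simp only [empC, Bool.and_eq_true] at h
    rcases List.mem_cons.1 hm with h' | h'
    · obtain ⟨rfl, rfl, rfl⟩ : a = x ∧ b = y ∧ c = z := by simpa using h'
      exact h.1
    · exact ih h.2 a b c h'

lemma mem_third (b c x : Nat) : ∀ l : List (Nat × Nat × Nat), x ∈ third b c l ↔ (x, b, c) ∈ l := by
  intro l
  induction l with
  | nil => simp [third]
  | cons t l ih =>
    obtain ⟨u, v, w⟩ := t
    rw [List.mem_cons]
    by_cases h : v = b ∧ w = c
    · obtain ⟨rfl, rfl⟩ := h
      simp [third, ih]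
    · have h' : (Nat.beq v b && Nat.beq w c) = false := by
        rw [Bool.eq_false_iff]
        intro hh
        rw [Bool.and_eq_true] at hh
        exact h ⟨Nat.eq_of_beq_eq_true hh.1, Nat.eq_of_beq_eq_true hh.2⟩
      simp only [third, h', Bool.false_eq_true, if_false]
      rw [ih]
      constructor
      · intro hm; exact Or.inr hm
      · rintro (hm | hm)
        · exfalso
          apply h
          have : x = u ∧ b = v ∧ c = w := by simpa using hm
          exact ⟨this.2.1.symm, this.2.2.symm⟩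
        · exact hm

lemma one_of {l : List Nat} (h : one l = true) : ∃ w, l = [w] := by
  match l, h with
  | [w], _ => exact ⟨w, rfl⟩

lemma adj_of : ∀ l : List (Nat × Nat × Nat), adjC l = true → ∀ a b c, (a, b, c) ∈ l →
    one (third b c R) = true ∧ one (third c b R) = true := by
  intro l
  induction l with
  | nil => intro _ a b c h; exact absurd h (by simp)
  | cons t l ih =>
    obtain ⟨x, y, z⟩ := t
    intro h a b c hm
    simp only [adjC, Bool.and_eq_true] at h
    rcases List.mem_cons.1 hm with h' | h'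
    · obtain ⟨rfl, rfl, rfl⟩ : a = x ∧ b = y ∧ c = z := by simpa using h'
      exact h.1
    · exact ih h.2 a b c h'

lemma uniq_same {a x b c : Nat} (h : (a, b, c) ∈ R) (hx : (x, b, c) ∈ R) : x = a := by
  obtain ⟨w, hw⟩ := one_of (adj_of R h3 a b c h).1
  rw [← mem_third, hw] at h hx
  simp only [List.mem_singleton] at h hx
  rw [h, hx]

lemma opp_exists {a b c : Nat} (h : (a, b, c) ∈ R) :
    ∃ w, (w, c, b) ∈ R ∧ ∀ x, (x, c, b) ∈ R → x = w := by
  obtain ⟨w, hw⟩ := one_of (adj_of R h3 a b c h).2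
  refine ⟨w, ?_, ?_⟩
  · rw [← mem_third, hw]; simp
  · intro x hx
    rw [← mem_third, hw] at hx
    simpa using hx

lemma mem_of_memB (a b c : Nat) : ∀ l : List (Nat × Nat × Nat), memB a b c l = true →
    (a, b, c) ∈ l := by
  intro l
  induction l with
  | nil => intro h; exact absurd h (by simp [memB])
  | cons t l ih =>
    obtain ⟨x, y, z⟩ := t
    intro h
    simp only [memB, Bool.or_eq_true, Bool.and_eq_true] at h
    rcases h with ⟨⟨h1, h2⟩, h3⟩ | h
    · rw [Nat.eq_of_beq_eq_true h1, Nat.eq_of_beq_eq_true h2, Nat.eq_of_beq_eq_true h3]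
      exact List.mem_cons_self
    · exact List.mem_cons_of_mem _ (ih h)

lemma rot_of : ∀ l : List (Nat × Nat × Nat), rotC l = true → ∀ a b c, (a, b, c) ∈ l →
    (b, c, a) ∈ R := by
  intro l
  induction l with
  | nil => intro _ a b c h; exact absurd h (by simp)
  | cons t l ih =>
    obtain ⟨x, y, z⟩ := t
    intro h a b c hm
    simp only [rotC, Bool.and_eq_true] at h
    rcases List.mem_cons.1 hm with h' | h'
    · obtain ⟨rfl, rfl, rfl⟩ : a = x ∧ b = y ∧ c = z := by simpa using h'
      exact mem_of_memB _ _ _ _ h.1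
    · exact ih h.2 a b c h'

lemma rot {a b c : Nat} (h : (a, b, c) ∈ R) : (b, c, a) ∈ R := rot_of R h4 a b c h

lemma bnd_of : ∀ l : List (Nat × Nat × Nat), bndC l = true → ∀ a b c, (a, b, c) ∈ l → a < 18 := by
  intro l
  induction l with
  | nil => intro _ a b c h; exact absurd h (by simp)
  | cons t l ih =>
    obtain ⟨x, y, z⟩ := t
    intro h a b c hm
    simp only [bndC, Bool.and_eq_true] at h
    rcases List.mem_cons.1 hm with h' | h'
    · obtain ⟨rfl, rfl, rfl⟩ : a = x ∧ b = y ∧ c = z := by simpa using h'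
      have := h.1
      simpa [Nat.blt_eq] using this
    · exact ih h.2 a b c h'

lemma cov_of (a : Nat) : ∀ l : List (Nat × Nat × Nat), covB a l = true →
    ∃ b c, (a, b, c) ∈ l := by
  intro l
  induction l with
  | nil => intro h; exact absurd h (by simp [covB])
  | cons t l ih =>
    obtain ⟨x, y, z⟩ := t
    intro h
    simp only [covB, Bool.or_eq_true] at h
    rcases h with h | h
    · rw [← Nat.eq_of_beq_eq_true h]
      exact ⟨y, z, List.mem_cons_self⟩
    · obtain ⟨b, c, hbc⟩ := ih h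
      exact ⟨b, c, List.mem_cons_of_mem _ hbc⟩

lemma covC_of : ∀ n, covC n = true → ∀ i < n, ∃ b c, (i, b, c) ∈ R := by
  intro n
  induction n with
  | zero => intro _ i hi; omega
  | succ n ih =>
    intro h i hi
    simp only [covC, Bool.and_eq_true] at h
    rcases Nat.lt_succ_iff_lt_or_eq.1 hi with h' | h'
    · exact ih h.2 i h'
    · rw [h']; exact cov_of n R h.1

/-! ### Triangles with vertices in `Fin 18` -/

/-- Membership for vertices in `Fin 18`. -/
def Rf (a b c : Fin 18) : Prop := ((a : ℕ), (b : ℕ), (c : ℕ)) ∈ R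

lemma Rf.rot {a b c : Fin 18} (h : Rf a b c) : Rf b c a := NotFan.rot h

lemma Rf.opp {a b c : Fin 18} (h : Rf a b c) : ∃ w, Rf w c b ∧ ∀ x, Rf x c b → x = w := by
  obtain ⟨w, hw, hw'⟩ := opp_exists h
  refine ⟨⟨w, bnd_of R h5 w _ _ hw⟩, hw, ?_⟩
  intro x hx
  exact Fin.ext (hw' x hx)

lemma Rf.uniq {a x b c : Fin 18} (h : Rf a b c) (hx : Rf x b c) : x = a :=
  Fin.ext (uniq_same h hx)

/-- The determinant of three columns. -/
def dt (a b c : Fin 18) : ℤ := dtv (getP P a) (getP P b) (getP P c)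

lemma Rf.pos {a b c : Fin 18} (h : Rf a b c) : 0 < dt a b c := pos_of R h1 _ _ _ h

lemma dtv_swap (p q r : Int × Int × Int) : dtv p r q = - dtv p q r := by
  obtain ⟨a, b, c⟩ := p
  obtain ⟨d, e, f⟩ := q
  obtain ⟨g, h, i⟩ := r
  simp only [dtv]; ring

lemma dtv_self (p q : Int × Int × Int) : dtv p q q = 0 := by
  obtain ⟨a, b, c⟩ := p
  obtain ⟨d, e, f⟩ := q
  simp only [dtv]; ring

lemma Rf.ne_right {a b c : Fin 18} (h : Rf a b c) : b ≠ c := by
  rintro rfl
  have := h.pos
  unfold dt at this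
  rw [dtv_self] at this
  exact lt_irrefl _ this

lemma Rf.ne_left {a b c : Fin 18} (h : Rf a b c) : a ≠ b := h.rot.rot.ne_right

lemma Rf.ne_outer {a b c : Fin 18} (h : Rf a b c) : a ≠ c := h.rot.ne_right.symm

lemma cover_Rf (i : Fin 18) : ∃ b c, Rf i b c := by
  obtain ⟨b, c, h⟩ := covC_of 18 h6 i i.2
  have hb := bnd_of R h5 _ _ _ (NotFan.rot h)
  have hc := bnd_of R h5 _ _ _ (NotFan.rot (NotFan.rot h))
  exact ⟨⟨b, hb⟩, ⟨c, hc⟩, h⟩

/-! ### Real determinants -/

/-- The determinant of three vectors. -/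
def D (u v w : Fin 3 → ℝ) : ℝ :=
  u 0 * (v 1 * w 2 - v 2 * w 1) - u 1 * (v 0 * w 2 - v 2 * w 0) + u 2 * (v 0 * w 1 - v 1 * w 0)

lemma D_col (a b c : Fin 18) : D (col V a) (col V b) (col V c) = (dt a b c : ℝ) := by
  unfold D dt col V dtv
  simp only [Matrix.cons_val_zero, Matrix.cons_val_one, Matrix.cons_val]
  push_cast
  ring

lemma D_lin1 (x y z : ℝ) (u v w p q : Fin 3 → ℝ) :
    D (x • u + y • v + z • w) p q = x * D u p q + y * D v p q + z * D w p q := by
  unfold D
  simp only [Pi.add_apply, Pi.smul_apply, smul_eq_mul]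
  ring

lemma D_lin2 (x y z : ℝ) (u v w p q : Fin 3 → ℝ) :
    D p (x • u + y • v + z • w) q = x * D p u q + y * D p v q + z * D p w q := by
  unfold D
  simp only [Pi.add_apply, Pi.smul_apply, smul_eq_mul]
  ring

lemma D_lin3 (x y z : ℝ) (u v w p q : Fin 3 → ℝ) :
    D p q (x • u + y • v + z • w) = x * D p q u + y * D p q v + z * D p q w := by
  unfold D
  simp only [Pi.add_apply, Pi.smul_apply, smul_eq_mul]
  ring

lemma D_self12 (u v : Fin 3 → ℝ) : D u u v = 0 := by unfold D; ring
lemma D_self13 (u v : Fin 3 → ℝ) : D u v u = 0 := by unfold D; ring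
lemma D_self23 (u v : Fin 3 → ℝ) : D u v v = 0 := by unfold D; ring
lemma D_zero1 (u v : Fin 3 → ℝ) : D 0 u v = 0 := by unfold D; simp
lemma D_swap23 (u v w : Fin 3 → ℝ) : D u w v = - D u v w := by unfold D; ring
lemma D_swap12 (u v w : Fin 3 → ℝ) : D v u w = - D u v w := by unfold D; ring

lemma sum_three {a b c : Fin 18} (hab : a ≠ b) (hac : a ≠ c) (hbc : b ≠ c) (f : Fin 18 → ℝ) :
    ∑ i ∈ ({a, b, c} : Finset (Fin 18)), f i • col V i
      = f a • col V a + f b • col V b + f c • col V c := by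
  rw [Finset.sum_insert (by simp [hab, hac]), Finset.sum_insert (by simp [hbc]),
    Finset.sum_singleton, add_assoc]

lemma Rf.inM {a b c : Fin 18} (h : Rf a b c) : InM V {a, b, c} := by
  have hD : 0 < D (col V a) (col V b) (col V c) := by
    rw [D_col]; exact_mod_cast h.pos
  have hab := h.ne_left
  have hac := h.ne_outer
  have hbc := h.ne_right
  refine ⟨?_, ?_, ?_⟩
  · rw [Finset.card_insert_of_notMem (by simp [hab, hac]),
      Finset.card_insert_of_notMem (by simp [hbc]), Finset.card_singleton]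
  · rw [linearIndepOn_finset_iff]
    intro f hf
    rw [sum_three hab hac hbc] at hf
    have e1 : f a * D (col V a) (col V b) (col V c) = 0 := by
      have := congrArg (fun x => D x (col V b) (col V c)) hf
      simp only [D_lin1, D_self12, D_self13, D_zero1, mul_zero, add_zero] at this
      exact this
    have e2 : f b * D (col V a) (col V b) (col V c) = 0 := by
      have := congrArg (fun x => D (col V a) x (col V c)) hf
      simp only [D_lin2, D_self12, D_self23, mul_zero, add_zero, zero_add] at this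
      rw [this]
      unfold D; simp
    have e3 : f c * D (col V a) (col V b) (col V c) = 0 := by
      have := congrArg (fun x => D (col V a) (col V b) x) hf
      simp only [D_lin3, D_self13, D_self23, mul_zero, add_zero, zero_add] at this
      rw [this]
      unfold D; simp
    intro i hi
    simp only [Finset.mem_insert, Finset.mem_singleton] at hi
    rcases hi with rfl | rfl | rfl
    · exact (mul_eq_zero.1 e1).resolve_right hD.ne'
    · exact (mul_eq_zero.1 e2).resolve_right hD.ne'
    · exact (mul_eq_zero.1 e3).resolve_right hD.ne'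
  · intro j hj hmem
    obtain ⟨f, hf0, hf⟩ := hmem
    rw [sum_three hab hac hbc] at hf
    have hj' : j ≠ a ∧ j ≠ b ∧ j ≠ c := by
      simpa [not_or] using hj
    have hlen : (j : ℕ) < P.length := j.2
    have hc := emp_of a b c _ _ _ P 0 (empC_of R h2 _ _ _ h) j hlen
    have n1 : (0 + (j : ℕ)) ≠ a := by
      rw [zero_add]; exact fun e => hj'.1 (Fin.ext e)
    have n2 : (0 + (j : ℕ)) ≠ b := by
      rw [zero_add]; exact fun e => hj'.2.1 (Fin.ext e)
    have n3 : (0 + (j : ℕ)) ≠ c := by
      rw [zero_add]; exact fun e => hj'.2.2 (Fin.ext e)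
    rcases hc with hc | hc | hc | hc | hc | hc
    · exact n1 hc
    · exact n2 hc
    · exact n3 hc
    · have hc' : 0 < D (col V j) (col V c) (col V b) := by
        rw [D_col]; exact_mod_cast hc
      rw [D_swap23, hf] at hc'
      simp only [D_lin1, D_self12, D_self13, mul_zero, add_zero] at hc'
      have := mul_nonneg (hf0 a) hD.le
      linarith
    · have hc' : 0 < D (col V a) (col V c) (col V j) := by
        rw [D_col]; exact_mod_cast hc
      rw [D_swap23, hf] at hc'
      simp only [D_lin2, D_self12, D_self23, mul_zero, add_zero, zero_add] at hc'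
      have := mul_nonneg (hf0 b) hD.le
      linarith
    · have hc' : 0 < D (col V b) (col V a) (col V j) := by
        rw [D_col]; exact_mod_cast hc
      rw [D_swap12, hf] at hc'
      simp only [D_lin3, D_self13, D_self23, mul_zero, add_zero, zero_add] at hc'
      have := mul_nonneg (hf0 c) hD.le
      linarith

/-! ### The collection is a pseudofan -/

lemma mem_C {s : Finset (Fin 18)} : s ∈ C ↔ ∃ x y z, Rf x y z ∧ s = {x, y, z} := Iff.rfl

lemma set_rot (a b c : Fin 18) : ({a, b, c} : Finset (Fin 18)) = {b, c, a} := by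
  ext x; simp only [Finset.mem_insert, Finset.mem_singleton]; tauto

lemma C_vertex {s : Finset (Fin 18)} (hs : s ∈ C) {i : Fin 18} (hi : i ∈ s) :
    ∃ b c, Rf i b c ∧ s = {i, b, c} := by
  obtain ⟨x, y, z, h, rfl⟩ := hs
  simp only [Finset.mem_insert, Finset.mem_singleton] at hi
  have h' : Rf x y z := h
  rcases hi with rfl | rfl | rfl
  · exact ⟨y, z, h', rfl⟩
  · exact ⟨z, x, h'.rot, set_rot _ _ _⟩
  · exact ⟨x, y, h'.rot.rot, by rw [set_rot, set_rot]⟩

lemma erase_tri {a b c : Fin 18} (h : Rf a b c) : ({a, b, c} : Finset (Fin 18)).erase a = {b, c} := by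
  rw [Finset.erase_insert]
  simp [h.ne_left, h.ne_outer]

lemma pair_eq {a b c d : Fin 18} (hab : a ≠ b) (h : ({a, b} : Finset (Fin 18)) = {c, d}) :
    (a = c ∧ b = d) ∨ (a = d ∧ b = c) := by
  have ha : a ∈ ({c, d} : Finset (Fin 18)) := by rw [← h]; simp
  have hb : b ∈ ({c, d} : Finset (Fin 18)) := by rw [← h]; simp
  simp only [Finset.mem_insert, Finset.mem_singleton] at ha hb
  rcases ha with ha | ha <;> rcases hb with hb | hb
  · exact absurd (ha.trans hb.symm) hab
  · exact Or.inl ⟨ha, hb⟩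
  · exact Or.inr ⟨ha, hb⟩
  · exact absurd (ha.trans hb.symm) hab

/-- The cones of the collection with a given facet. -/
lemma facet_unique {a b c w : Fin 18} (h : Rf a b c) (hw : Rf w c b) {t : Finset (Fin 18)}
    (ht : t ∈ C) (hf : IsFacet {b, c} t) : t = {a, b, c} ∨ t = {w, c, b} := by
  obtain ⟨j, hj, he⟩ := hf
  obtain ⟨y, z, hyz, rfl⟩ := C_vertex ht hj
  rw [erase_tri hyz] at he
  rcases pair_eq hyz.ne_right he with ⟨rfl, rfl⟩ | ⟨rfl, rfl⟩
  · left
    rw [h.uniq hyz]
  · right
    rw [hw.uniq hyz]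

lemma opp_ne {a b c w : Fin 18} (h : Rf a b c) (hw : Rf w c b) :
    ({w, c, b} : Finset (Fin 18)) ≠ {a, b, c} := by
  intro he
  have hmem : w ∈ ({a, b, c} : Finset (Fin 18)) := by rw [← he]; simp
  simp only [Finset.mem_insert, Finset.mem_singleton] at hmem
  rcases hmem with rfl | rfl | rfl
  · have h1 := h.pos
    have h2 := hw.pos
    unfold dt at h1 h2
    rw [dtv_swap] at h2
    omega
  · exact hw.ne_outer rfl
  · exact hw.ne_left rfl

/-- The linear functional vanishing on two columns. -/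
noncomputable def fn (b c : Fin 18) : (Fin 3 → ℝ) →ₗ[ℝ] ℝ where
  toFun x := D x (col V b) (col V c)
  map_add' x y := by unfold D; simp only [Pi.add_apply]; ring
  map_smul' r x := by unfold D; simp only [Pi.smul_apply, smul_eq_mul, RingHom.id_apply]; ring

theorem pseudofan : IsPseudofan V C where
  subM := by
    rintro s ⟨x, y, z, h, rfl⟩
    exact Rf.inM h
  cover := by
    intro i
    obtain ⟨b, c, h⟩ := cover_Rf i
    exact ⟨{i, b, c}, ⟨i, b, c, h, rfl⟩, by simp⟩
  facets := by
    intro s hs i hi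
    obtain ⟨b, c, h, rfl⟩ := C_vertex hs hi
    obtain ⟨w, hw, hw'⟩ := h.opp
    rw [erase_tri h]
    refine ⟨{w, c, b}, ⟨w, c, b, hw, rfl⟩, opp_ne h hw, ?_, ?_, ?_⟩
    · refine ⟨w, by simp, ?_⟩
      rw [erase_tri hw, Finset.pair_comm]
    · intro t' ht' hne hf
      rcases facet_unique h hw ht' hf with h1 | h1
      · exact absurd h1 hne
      · exact h1
    · refine ⟨fn b c, ?_, ?_, ?_⟩
      · intro a ha
        simp only [Finset.mem_insert, Finset.mem_singleton] at ha
        show D (col V a) (col V b) (col V c) = 0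
        rcases ha with rfl | rfl
        · exact D_self12 _ _
        · exact D_self13 _ _
      · show 0 < D (col V i) (col V b) (col V c)
        rw [D_col]
        exact_mod_cast h.pos
      · rintro x ⟨f, hf0, rfl⟩
        rw [sum_three hw.ne_left hw.ne_outer hw.ne_right]
        show D (f w • col V w + f c • col V c + f b • col V b) (col V b) (col V c) ≤ 0
        rw [D_lin1, D_self12, D_self13, D_swap23, D_col]
        have h1 : (0 : ℝ) < (dt w c b : ℝ) := by exact_mod_cast hw.pos
        have := mul_nonneg (hf0 w) h1.le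
        linarith

/-! ### Minimality -/

/-- A pseudofan contained in `C` is closed under adjacency. -/
lemma closed_step {C' : Set (Finset (Fin 18))} (hsub : C' ⊆ C) (h' : IsPseudofan V C')
    {a b c w : Fin 18} (h : Rf a b c) (hw : Rf w c b) (hmem : ({w, c, b} : Finset (Fin 18)) ∈ C') :
    ({a, b, c} : Finset (Fin 18)) ∈ C' := by
  obtain ⟨t, ht, hne, hf, -, -⟩ := h'.facets _ hmem w (by simp)
  rw [erase_tri hw] at hf
  rcases facet_unique hw h (hsub ht) hf with h1 | h1
  · exact absurd h1 hne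
  · rw [← h1]; exact ht

lemma rel_of : ∀ (l : List (Nat × Nat × Nat)) (l' : List Nat) (n : Nat), parC n l l' = true →
    ∀ i, i < l.length → n + i = 0 ∨
      ∃ m, m < n + i ∧ rel (getT l i) (getT R m) = true := by
  intro l
  induction l with
  | nil => intro _ _ _ i hi; exact absurd hi (by simp)
  | cons t l ih =>
    intro l' n h i hi
    cases l' with
    | nil => exact absurd h (by simp [parC])
    | cons m l' =>
      simp only [parC, Bool.and_eq_true, Bool.or_eq_true] at h
      obtain ⟨h1, h2⟩ := h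
      cases i with
      | zero =>
        rcases h1 with h1 | ⟨h1, h3⟩
        · left
          rw [Nat.eq_of_beq_eq_true h1]
        · right
          refine ⟨m, ?_, h3⟩
          simpa [Nat.blt_eq] using h1
      | succ i =>
        have := ih l' (n + 1) h2 i (by simpa using hi)
        have e : n + (i + 1) = n + 1 + i := by omega
        rw [e]
        exact this

lemma getT_mem : ∀ (l : List (Nat × Nat × Nat)) (n : Nat), n < l.length → getT l n ∈ l := by
  intro l
  induction l with
  | nil => intro n h; exact absurd h (by simp)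
  | cons t l ih =>
    intro n h
    cases n with
    | zero => exact List.mem_cons_self
    | succ n => exact List.mem_cons_of_mem _ (ih n (by simpa using h))

lemma mem_getT : ∀ (l : List (Nat × Nat × Nat)) (t), t ∈ l → ∃ n, n < l.length ∧ getT l n = t := by
  intro l
  induction l with
  | nil => intro t h; exact absurd h (by simp)
  | cons u l ih =>
    intro t h
    rcases List.mem_cons.1 h with rfl | h
    · exact ⟨0, by simp, rfl⟩
    · obtain ⟨n, hn, e⟩ := ih t h
      exact ⟨n + 1, by simpa using hn, e⟩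

/-- Membership of the triangle number `n` in a collection. -/
def InC (C' : Set (Finset (Fin 18))) (n : Nat) : Prop :=
  ∀ a b c : Fin 18, getT R n = ((a : ℕ), (b : ℕ), (c : ℕ)) → ({a, b, c} : Finset (Fin 18)) ∈ C'

lemma exists_fin {n : Nat} (hn : n < R.length) :
    ∃ a b c : Fin 18, getT R n = ((a : ℕ), (b : ℕ), (c : ℕ)) ∧ Rf a b c := by
  have hm := getT_mem R n hn
  rcases hh : getT R n with ⟨a, b, c⟩
  rw [hh] at hm
  have h1 := bnd_of R h5 _ _ _ hm
  have h2 := bnd_of R h5 _ _ _ (NotFan.rot hm)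
  have h3 := bnd_of R h5 _ _ _ (NotFan.rot (NotFan.rot hm))
  exact ⟨⟨a, h1⟩, ⟨b, h2⟩, ⟨c, h3⟩, rfl, hm⟩

lemma InC_iff {C' : Set (Finset (Fin 18))} {n : Nat} {a b c : Fin 18}
    (h : getT R n = ((a : ℕ), (b : ℕ), (c : ℕ))) :
    InC C' n ↔ ({a, b, c} : Finset (Fin 18)) ∈ C' := by
  constructor
  · intro hi; exact hi a b c h
  · intro hm x y z hxyz
    rw [h] at hxyz
    have e : (a : ℕ) = x ∧ (b : ℕ) = y ∧ (c : ℕ) = z := by simpa using hxyz
    rw [← Fin.ext e.1, ← Fin.ext e.2.1, ← Fin.ext e.2.2]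
    exact hm

lemma InC_rel {C' : Set (Finset (Fin 18))} (hsub : C' ⊆ C) (h' : IsPseudofan V C') {n m : Nat}
    (hn : n < R.length) (hm : m < R.length) (hr : rel (getT R n) (getT R m) = true) :
    InC C' n ↔ InC C' m := by
  obtain ⟨a, b, c, e1, r1⟩ := exists_fin hn
  obtain ⟨x, y, z, e2, r2⟩ := exists_fin hm
  rw [InC_iff e1, InC_iff e2]
  rw [e1, e2] at hr
  simp only [rel, Bool.or_eq_true, Bool.and_eq_true] at hr
  rcases hr with ⟨⟨h1, h2⟩, h3⟩ | ⟨h1, h2⟩
  · have k1 : a = y := Fin.ext (Nat.eq_of_beq_eq_true h1)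
    have k2 : b = z := Fin.ext (Nat.eq_of_beq_eq_true h2)
    have k3 : c = x := Fin.ext (Nat.eq_of_beq_eq_true h3)
    subst k1 k2 k3
    rw [set_rot, set_rot]
  · have k1 : b = z := Fin.ext (Nat.eq_of_beq_eq_true h1)
    have k2 : c = y := Fin.ext (Nat.eq_of_beq_eq_true h2)
    subst k1 k2
    constructor
    · intro hmem
      exact closed_step hsub h' r2 r1 hmem
    · intro hmem
      exact closed_step hsub h' r1 r2 hmem

theorem minimal {C' : Set (Finset (Fin 18))} (hsub : C' ⊆ C) (h' : IsPseudofan V C') :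
    C' = C := by
  have hlen : 0 < R.length := by decide +kernel
  have key : ∀ n, n < R.length → (InC C' n ↔ InC C' 0) := by
    intro n
    induction n using Nat.strong_induction_on with
    | _ n ih =>
      intro hn
      rcases rel_of R par 0 h7 n hn with h | ⟨m, hm, hr⟩
      · have : n = 0 := by omega
        rw [this]
      · rw [zero_add] at hm
        rw [InC_rel hsub h' hn (hm.trans hn) hr]
        exact ih m hm (hm.trans hn)
  have h0 : InC C' 0 := by
    obtain ⟨s, hs, -⟩ := h'.cover 0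
    obtain ⟨x, y, z, h, rfl⟩ := hsub hs
    obtain ⟨n, hn, e⟩ := mem_getT R _ h
    rw [← key n hn, InC_iff e]
    exact hs
  apply Set.Subset.antisymm hsub
  rintro s ⟨x, y, z, h, rfl⟩
  obtain ⟨n, hn, e⟩ := mem_getT R _ h
  rw [← InC_iff e, key n hn]
  exact h0

/-! ### The matrix is an F-matrix -/

lemma cone_add {x y : Fin 3 → ℝ} (hx : x ∈ coneOf V Finset.univ) (hy : y ∈ coneOf V Finset.univ) :
    x + y ∈ coneOf V Finset.univ := by
  obtain ⟨f, hf, rfl⟩ := hx
  obtain ⟨g, hg, rfl⟩ := hy
  refine ⟨fun i => f i + g i, fun i => add_nonneg (hf i) (hg i), ?_⟩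
  rw [← Finset.sum_add_distrib]
  exact Finset.sum_congr rfl (fun i _ => (add_smul _ _ _).symm)

lemma cone_smul {x : Fin 3 → ℝ} {r : ℝ} (hr : 0 ≤ r) (hx : x ∈ coneOf V Finset.univ) :
    r • x ∈ coneOf V Finset.univ := by
  obtain ⟨f, hf, rfl⟩ := hx
  refine ⟨fun i => r * f i, fun i => mul_nonneg hr (hf i), ?_⟩
  rw [Finset.smul_sum]
  exact Finset.sum_congr rfl (fun i _ => by rw [smul_smul])

lemma cone_col (i : Fin 18) : col V i ∈ coneOf V Finset.univ := by
  refine ⟨fun j => if j = i then 1 else 0, fun j => by dsimp only; split_ifs <;> norm_num, ?_⟩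
  rw [Finset.sum_eq_single i]
  · simp
  · intro j _ hj
    simp [hj]
  · intro h
    exact absurd (Finset.mem_univ _) h

lemma cone_comb (i j k : Fin 18) {x y z : ℝ} (hx : 0 ≤ x) (hy : 0 ≤ y) (hz : 0 ≤ z) :
    x • col V i + y • col V j + z • col V k ∈ coneOf V Finset.univ :=
  cone_add (cone_add (cone_smul hx (cone_col i)) (cone_smul hy (cone_col j)))
    (cone_smul hz (cone_col k))

lemma e0 : (![1, 0, 0] : Fin 3 → ℝ) ∈ coneOf V Finset.univ := by
  have := cone_comb 3 8 11 (x := 31 / 2) (y := 1 / 2) (z := 4) (by norm_num) (by norm_num)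
    (by norm_num)
  convert this using 1
  funext k
  fin_cases k <;> simp [col, V, getP, P] <;> norm_num

lemma e0' : (![-1, 0, 0] : Fin 3 → ℝ) ∈ coneOf V Finset.univ := by
  have := cone_comb 1 2 3 (x := 5) (y := 12) (z := 50) (by norm_num) (by norm_num)
    (by norm_num)
  convert this using 1
  funext k
  fin_cases k <;> simp [col, V, getP, P] <;> norm_num

lemma e1 : (![0, 1, 0] : Fin 3 → ℝ) ∈ coneOf V Finset.univ := by
  have := cone_comb 2 5 14 (x := 1) (y := 4) (z := 3) (by norm_num) (by norm_num)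
    (by norm_num)
  convert this using 1
  funext k
  fin_cases k <;> simp [col, V, getP, P] <;> norm_num

lemma e1' : (![0, -1, 0] : Fin 3 → ℝ) ∈ coneOf V Finset.univ := by
  have := cone_comb 1 5 7 (x := 3) (y := 7) (z := 1) (by norm_num) (by norm_num)
    (by norm_num)
  convert this using 1
  funext k
  fin_cases k <;> simp [col, V, getP, P] <;> norm_num

lemma e2 : (![0, 0, 1] : Fin 3 → ℝ) ∈ coneOf V Finset.univ := by
  have := cone_comb 0 6 15 (x := 5 / 2) (y := 7 / 2) (z := 7 / 2) (by norm_num) (by norm_num)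
    (by norm_num)
  convert this using 1
  funext k
  fin_cases k <;> simp [col, V, getP, P] <;> norm_num

lemma e2' : (![0, 0, -1] : Fin 3 → ℝ) ∈ coneOf V Finset.univ := by
  have := cone_comb 1 2 3 (x := 2) (y := 5) (z := 21) (by norm_num) (by norm_num)
    (by norm_num)
  convert this using 1
  funext k
  fin_cases k <;> simp [col, V, getP, P] <;> norm_num

lemma cone_univ : coneOf V Finset.univ = Set.univ := by
  rw [Set.eq_univ_iff_forall]
  intro x
  have h := cone_add (cone_add (cone_add (cone_smul (le_max_right (x 0) 0) e0)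
    (cone_smul (le_max_right (-x 0) 0) e0'))
    (cone_add (cone_smul (le_max_right (x 1) 0) e1) (cone_smul (le_max_right (-x 1) 0) e1')))
    (cone_add (cone_smul (le_max_right (x 2) 0) e2) (cone_smul (le_max_right (-x 2) 0) e2'))
  have hm : ∀ r : ℝ, max r 0 - max (-r) 0 = r := by
    intro r
    rcases le_total r 0 with h | h
    · rw [max_eq_right h, max_eq_left (by linarith)]; ring
    · rw [max_eq_left h, max_eq_right (by linarith)]; ring
  have a0 := hm (x 0)
  have a1 := hm (x 1)
  have a2 := hm (x 2)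
  convert h using 1
  funext k
  fin_cases k <;> simp <;> linarith

lemma bz_of : ∀ (l l' : List (Int × Int × Int)), bzC l l' = true → ∀ i, i < l.length →
    ∃ a b c : Int, a * (getP l i).1 + b * (getP l i).2.1 + c * (getP l i).2.2 = 1 := by
  intro l
  induction l with
  | nil => intro _ _ i hi; exact absurd hi (by simp)
  | cons t l ih =>
    obtain ⟨x, y, z⟩ := t
    intro l' h i hi
    cases l' with
    | nil => exact absurd h (by simp [bzC])
    | cons m l' =>
      obtain ⟨a, b, c⟩ := m
      simp only [bzC, Bool.and_eq_true, beq_iff_eq] at h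
      cases i with
      | zero => exact ⟨a, b, c, h.1⟩
      | succ i => exact ih l' h.2 i (by simpa using hi)

lemma col0 (i : Fin 18) : col V i 0 = ((getP P i).1 : ℝ) := rfl
lemma col1 (i : Fin 18) : col V i 1 = ((getP P i).2.1 : ℝ) := rfl
lemma col2 (i : Fin 18) : col V i 2 = ((getP P i).2.2 : ℝ) := rfl

theorem isFMatrix : IsFMatrix V where
  rank := by
    rw [eq_top_iff]
    intro x _
    have hx : x ∈ coneOf V Finset.univ := by rw [cone_univ]; trivial
    obtain ⟨f, -, rfl⟩ := hx
    exact Submodule.sum_mem _ (fun i _ => Submodule.smul_mem _ _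
      (Submodule.subset_span ⟨i, rfl⟩))
  ne_zero := by
    intro i h
    obtain ⟨a, b, c, e⟩ := bz_of P bz h8 i i.2
    have h0 : (getP P i).1 = 0 := by
      have := congrFun h 0
      rw [col0, Pi.zero_apply] at this
      exact_mod_cast this
    have h1 : (getP P i).2.1 = 0 := by
      have := congrFun h 1
      rw [col1, Pi.zero_apply] at this
      exact_mod_cast this
    have h2 : (getP P i).2.2 = 0 := by
      have := congrFun h 2
      rw [col2, Pi.zero_apply] at this
      exact_mod_cast this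
    rw [h0, h1, h2] at e
    norm_num at e
  not_multiple := by
    rintro i j hij ⟨c, -, h⟩
    have hc := h9 i j hij
    have h0 : ((getP P j).1 : ℝ) = c * ((getP P i).1 : ℝ) := congrFun h 0
    have h1 : ((getP P j).2.1 : ℝ) = c * ((getP P i).2.1 : ℝ) := congrFun h 1
    have h2 : ((getP P j).2.2 : ℝ) = c * ((getP P i).2.2 : ℝ) := congrFun h 2
    have k1 : (getP P i).2.1 * (getP P j).2.2 - (getP P i).2.2 * (getP P j).2.1 = 0 := by
      have : (((getP P i).2.1 * (getP P j).2.2 - (getP P i).2.2 * (getP P j).2.1 : ℤ) : ℝ) = 0 := by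
        push_cast
        rw [h1, h2]; ring
      exact_mod_cast this
    have k2 : (getP P i).2.2 * (getP P j).1 - (getP P i).1 * (getP P j).2.2 = 0 := by
      have : (((getP P i).2.2 * (getP P j).1 - (getP P i).1 * (getP P j).2.2 : ℤ) : ℝ) = 0 := by
        push_cast
        rw [h0, h2]; ring
      exact_mod_cast this
    have k3 : (getP P i).1 * (getP P j).2.1 - (getP P i).2.1 * (getP P j).1 = 0 := by
      have : (((getP P i).1 * (getP P j).2.1 - (getP P i).2.1 * (getP P j).1 : ℤ) : ℝ) = 0 := by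
        push_cast
        rw [h0, h1]; ring
      exact_mod_cast this
    clear h0 h1 h2 h
    generalize getP P (i : ℕ) = p at hc k1 k2 k3
    generalize getP P (j : ℕ) = q at hc k1 k2 k3
    obtain ⟨x1, y1, z1⟩ := p
    obtain ⟨x2, y2, z2⟩ := q
    dsimp only at k1 k2 k3
    simp only [crs, k1, k2, k3] at hc
    exact absurd hc (by decide)
  generate := cone_univ
  gcd_one := by
    intro i
    obtain ⟨a, b, c, e⟩ := bz_of P bz h8 i i.2
    set g := Finset.univ.gcd fun k => V k i with hg
    have d0 : g ∣ (getP P i).1 := Finset.gcd_dvd (f := fun k => V k i) (Finset.mem_univ (0 : Fin 3))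
    have d1 : g ∣ (getP P i).2.1 :=
      Finset.gcd_dvd (f := fun k => V k i) (Finset.mem_univ (1 : Fin 3))
    have d2 : g ∣ (getP P i).2.2 :=
      Finset.gcd_dvd (f := fun k => V k i) (Finset.mem_univ (2 : Fin 3))
    have d : g ∣ 1 := by
      rw [← e]
      exact dvd_add (dvd_add (Dvd.dvd.mul_left d0 _) (Dvd.dvd.mul_left d1 _))
        (Dvd.dvd.mul_left d2 _)
    have hn : 0 ≤ g := Int.nonneg_of_normalize_eq_self Finset.normalize_gcd
    exact Int.eq_one_of_dvd_one hn d

/-! ### The collection is not a fan -/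

theorem not_fan : ¬ ∃ S, IsCompleteFan V S ∧ C = {s | s ∈ S ∧ s.card = 3} := by
  rintro ⟨S, hS, hC⟩
  have m1 : ({5, 8, 9} : Finset (Fin 18)) ∈ C :=
    ⟨5, 8, 9, mem_of_memB 5 8 9 R (by decide +kernel), rfl⟩
  have m2 : ({5, 13, 15} : Finset (Fin 18)) ∈ C :=
    ⟨5, 13, 15, mem_of_memB 5 13 15 R (by decide +kernel), rfl⟩
  rw [hC] at m1 m2
  obtain ⟨r, hr1, hr2, hr⟩ := hS.inter _ m1.1 _ m2.1
  have p1 : (![0, -6, -19] : Fin 3 → ℝ) ∈ coneOf V ({5, 8, 9} : Finset (Fin 18)) := by
    refine ⟨fun i => if i = 8 then 2 else 1, fun i => by dsimp only; split_ifs <;> norm_num, ?_⟩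
    rw [sum_three (by decide) (by decide) (by decide)]
    funext k
    fin_cases k <;> simp [col, V, getP, P] <;> norm_num
  have p2 : (![0, -6, -19] : Fin 3 → ℝ) ∈ coneOf V ({5, 13, 15} : Finset (Fin 18)) := by
    refine ⟨fun i => if i = 13 then 2 else 1, fun i => by dsimp only; split_ifs <;> norm_num, ?_⟩
    rw [sum_three (by decide) (by decide) (by decide)]
    funext k
    fin_cases k <;> simp [col, V, getP, P] <;> norm_num
  have p : (![0, -6, -19] : Fin 3 → ℝ) ∈ coneOf V r := by
    rw [← hr]; exact ⟨p1, p2⟩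
  have hrs : r ⊆ {5} := by
    intro i hi
    have a1 := hr1 hi
    have a2 := hr2 hi
    simp only [Finset.mem_insert, Finset.mem_singleton] at a1 a2 ⊢
    rcases a1 with rfl | rfl | rfl
    · rfl
    · rcases a2 with h | h | h <;> exact absurd h (by decide)
    · rcases a2 with h | h | h <;> exact absurd h (by decide)
  obtain ⟨f, -, hf⟩ := p
  have hsum : ∑ i ∈ r, f i • col V i = (if 5 ∈ r then f 5 else 0) • col V 5 := by
    by_cases h5 : (5 : Fin 18) ∈ r
    · have : r = {5} := Finset.Subset.antisymm hrs (by simpa using h5)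
      rw [this]; simp
    · have : r = ∅ := by
        rw [Finset.eq_empty_iff_forall_notMem]
        intro i hi
        have := hrs hi
        rw [Finset.mem_singleton] at this
        exact h5 (this ▸ hi)
      rw [this]; simp
  rw [hsum] at hf
  have g1 := congrFun hf 1
  have g2 := congrFun hf 2
  simp only [Pi.smul_apply, smul_eq_mul, col1, col2] at g1 g2
  have v1 : ((getP P ((5 : Fin 18) : ℕ)).2.1 : ℝ) = -1 := by
    have : (getP P ((5 : Fin 18) : ℕ)).2.1 = -1 := by decide +kernel
    rw [this]; norm_num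
  have v2 : ((getP P ((5 : Fin 18) : ℕ)).2.2 : ℝ) = -2 := by
    have : (getP P ((5 : Fin 18) : ℕ)).2.2 = -2 := by decide +kernel
    rw [this]; norm_num
  rw [v1] at g1
  rw [v2] at g2
  simp at g1 g2
  split_ifs at g1 g2 <;> linarith

/-- There are an F-matrix with three rows and a minimal pseudofan of it which is not the set of
maximal cones of a complete simplicial fan with the given rays. -/
theorem result : ∃ V : Matrix (Fin 3) (Fin 18) ℤ, IsFMatrix V ∧
    ∃ C : Set (Finset (Fin 18)), IsPseudofan V C ∧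
      (∀ C' ⊆ C, IsPseudofan V C' → C' = C) ∧
      ¬ ∃ S, IsCompleteFan V S ∧ C = {s | s ∈ S ∧ s.card = 3} :=
  ⟨V, isFMatrix, C, pseudofan, fun _ hsub h' => minimal hsub h', not_fan⟩

end Pool.Agent.Results.MP_d9dcf6_co.NotFan
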